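import Pool.Agent.H741.RS.Stm

/-!
# RS GOOD: a generic self-adjoint operator in the commutant
-/

set_option autoImplicit false
open scoped ComplexConjugate

namespace Pool.Agent.H379.RS

open Pool.Agent.H741.RS Module.End

/-- the set of the eigenvalues -/
def eg {n : ℕ} (h : V n →L[ℂ] V n) : Set ℂ := {μ | HasEigenvalue (h : V n →ₗ[ℂ] V n) μ}

theorem eg_fin {n : ℕ} (h : V n →L[ℂ] V n) : (eg h).Finite := finite_hasEigenvalue _

theorem eg_card {n : ℕ} (h : V n →L[ℂ] V n) : (eg h).ncard ≤ Module.finrank ℂ (V n) := by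
  classical
  have h0 : (h : V n →ₗ[ℂ] V n).charpoly ≠ 0 := (LinearMap.charpoly_monic _).ne_zero
  have hsub : eg h ⊆ ↑((h : V n →ₗ[ℂ] V n).charpoly.roots.toFinset) := by
    intro μ hμ
    rw [Finset.mem_coe, Multiset.mem_toFinset, Polynomial.mem_roots h0]
    exact (hasEigenvalue_iff_isRoot_charpoly _ _).1 hμ
  calc (eg h).ncard ≤ ((h : V n →ₗ[ℂ] V n).charpoly.roots.toFinset : Set ℂ).ncard :=
        Set.ncard_le_ncard hsub (Finset.finite_toSet _)
    _ = (h : V n →ₗ[ℂ] V n).charpoly.roots.toFinset.card := Set.ncard_coe_finset _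
    _ ≤ Multiset.card (h : V n →ₗ[ℂ] V n).charpoly.roots := Multiset.toFinset_card_le _
    _ ≤ (h : V n →ₗ[ℂ] V n).charpoly.natDegree := Polynomial.card_roots' _
    _ = Module.finrank ℂ (V n) := LinearMap.charpoly_natDegree _

theorem key {n : ℕ} (h Y : V n →L[ℂ] V n) (hh : (h : V n →ₗ[ℂ] V n).IsSymmetric)
    (hY : (Y : V n →ₗ[ℂ] V n).IsSymmetric) (hc : ∀ x, Y (h x) = h (Y x))
    (hmax : ∀ ε : ℝ, (eg (h + (ε : ℂ) • Y)).ncard ≤ (eg h).ncard) (Z : V n →L[ℂ] V n)
    (hZ : ∀ x, Z (h x) = h (Z x)) (x : V n) : Z (Y x) = Y (Z x) := by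
  classical
  set A : V n →ₗ[ℂ] V n := (h : V n →ₗ[ℂ] V n) with hA
  set B : V n →ₗ[ℂ] V n := (Y : V n →ₗ[ℂ] V n) with hB
  have hAB : Commute A B := by
    refine LinearMap.ext fun x => ?_
    exact (hc x).symm
  let P : Set (ℂ × ℂ) := {p | eigenspace A p.1 ⊓ eigenspace B p.2 ≠ ⊥}
  have hPfin : P.Finite := by
    refine ((eg_fin h).prod (eg_fin Y)).subset ?_
    rintro ⟨a, b⟩ hp
    have hp' : eigenspace A a ⊓ eigenspace B b ≠ ⊥ := hp
    refine ⟨?_, ?_⟩
    · intro h0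
      exact hp' (by rw [show eigenspace A a = ⊥ from h0, bot_inf_eq])
    · intro h0
      exact hp' (by rw [show eigenspace B b = ⊥ from h0, inf_bot_eq])
  -- choice of ε
  have hbad : ((fun q : (ℂ × ℂ) × (ℂ × ℂ) => ((q.1.1 - q.2.1) / (q.2.2 - q.1.2)).re) ''
      (P ×ˢ P)).Finite := (hPfin.prod hPfin).image _
  obtain ⟨ε, hε⟩ := hbad.exists_notMem
  have hinj : Set.InjOn (fun p : ℂ × ℂ => p.1 + (ε : ℂ) * p.2) P := by
    rintro ⟨a, b⟩ hp ⟨a', b'⟩ hp' he
    have he' : a + (ε : ℂ) * b = a' + (ε : ℂ) * b' := he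
    by_cases hb : b = b'
    · subst hb
      have : a = a' := add_right_cancel he'
      rw [this]
    · exfalso
      apply hε
      refine ⟨((a, b), (a', b')), ⟨hp, hp'⟩, ?_⟩
      have h1 : b' - b ≠ 0 := fun h2 => hb (sub_eq_zero.1 h2).symm
      have h2 : (a - a') / (b' - b) = (ε : ℂ) := by
        rw [div_eq_iff h1]
        linear_combination he'
      show ((a - a') / (b' - b)).re = ε
      rw [h2, Complex.ofReal_re]
  have hmaps : ∀ p ∈ P, (fun p : ℂ × ℂ => p.1 + (ε : ℂ) * p.2) p ∈ eg (h + (ε : ℂ) • Y) := by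
    rintro ⟨a, b⟩ hp
    obtain ⟨v, hv, hv0⟩ := (Submodule.ne_bot_iff _).1 hp
    obtain ⟨hv1, hv2⟩ := Submodule.mem_inf.1 hv
    rw [mem_eigenspace_iff] at hv1 hv2
    have hv1' : h v = a • v := hv1
    have hv2' : Y v = b • v := hv2
    refine hasEigenvalue_of_hasEigenvector (x := v) ⟨?_, hv0⟩
    rw [mem_eigenspace_iff]
    show (h + (ε : ℂ) • Y) v = (a + (ε : ℂ) * b) • v
    rw [add_apply, smul_apply, hv1', hv2', smul_smul,
      add_smul]
  have hc1 : P.ncard ≤ (eg h).ncard :=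
    (Set.ncard_le_ncard_of_injOn _ hmaps hinj (eg_fin _)).trans (hmax ε)
  have hsub : eg h ⊆ Prod.fst '' P := by
    intro a ha
    have ha' : eigenspace A a ≠ ⊥ := ha
    by_contra hno
    apply ha'
    rw [← LinearMap.IsSymmetric.iSup_eigenspace_inf_eigenspace_of_commute hY hAB, iSup_eq_bot]
    intro b
    by_contra hb
    exact hno ⟨(a, b), hb, rfl⟩
  have hc2 : (Prod.fst '' P).ncard = P.ncard := by
    refine le_antisymm (Set.ncard_image_le hPfin) (hc1.trans ?_)
    exact Set.ncard_le_ncard hsub (hPfin.image _)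
  have hfst : Set.InjOn Prod.fst P := (Set.ncard_image_iff hPfin).1 hc2
  -- the operators commute on the joint eigenspaces
  have htop := LinearMap.IsSymmetric.iSup_iSup_eigenspace_inf_eigenspace_eq_top_of_commute
    hh hY hAB
  have hle : (⨆ α, ⨆ γ, eigenspace A α ⊓ eigenspace B γ) ≤
      LinearMap.eqLocus ((Z : V n →ₗ[ℂ] V n) ∘ₗ B) (B ∘ₗ (Z : V n →ₗ[ℂ] V n)) := by
    refine iSup_le fun a => iSup_le fun b => ?_
    intro v hv
    rw [LinearMap.mem_eqLocus]
    show Z (Y v) = Y (Z v)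
    by_cases hv0 : v = 0
    · simp only [hv0, map_zero]
    have hp : (a, b) ∈ P := (Submodule.ne_bot_iff _).2 ⟨v, hv, hv0⟩
    obtain ⟨hv1, hv2⟩ := Submodule.mem_inf.1 hv
    rw [mem_eigenspace_iff] at hv1 hv2
    have hv1' : h v = a • v := hv1
    have hv2' : Y v = b • v := hv2
    have h1 : Z v ∈ eigenspace A a := by
      rw [mem_eigenspace_iff]
      show h (Z v) = a • Z v
      rw [← hZ, hv1', map_smul]
    have h2 : eigenspace A a ≤ eigenspace B b := by
      rw [← LinearMap.IsSymmetric.iSup_eigenspace_inf_eigenspace_of_commute hY hAB]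
      refine iSup_le fun c => ?_
      by_cases hcb : c = b
      · rw [hcb]
        exact inf_le_right
      · have h3 : eigenspace A a ⊓ eigenspace B c = ⊥ := by
          by_contra h4
          have h5 : ((a, c) : ℂ × ℂ) ∈ P := h4
          have h6 := hfst h5 hp rfl
          exact hcb (congrArg Prod.snd h6)
        rw [h3]
        exact bot_le
    have h3 := h2 h1
    rw [mem_eigenspace_iff] at h3
    have h3' : Y (Z v) = b • Z v := h3
    rw [hv2', map_smul, h3']
  rw [htop] at hle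
  exact (LinearMap.mem_eqLocus).1 (hle (Submodule.mem_top : x ∈ ⊤))

theorem sym_of_sa {n : ℕ} {h : V n →L[ℂ] V n} (hs : ∀ z w, hp (h z) w = hp z (h w)) :
    (h : V n →ₗ[ℂ] V n).IsSymmetric := by
  intro x y
  exact (hs y x).symm

theorem sa_of_sym {n : ℕ} {h : V n →L[ℂ] V n} (hs : (h : V n →ₗ[ℂ] V n).IsSymmetric) :
    ∀ z w, hp (h z) w = hp z (h w) := by
  intro z w
  exact (hs w z).symm

/-- admissible operators -/
def Ad {n : ℕ} (G : Subgroup (V n ≃ₗᵢ[ℂ] V n)) (h : V n →L[ℂ] V n) : Prop :=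
  (h : V n →ₗ[ℂ] V n).IsSymmetric ∧ ∀ U ∈ G, ∀ z, h (U z) = U (h z)

theorem ex_max {n : ℕ} (G : Subgroup (V n ≃ₗᵢ[ℂ] V n)) :
    ∃ h, Ad G h ∧ ∀ h', Ad G h' → (eg h').ncard ≤ (eg h).ncard := by
  let S : Set ℕ := {k | ∃ h, Ad G h ∧ (eg h).ncard = k}
  have hne : S.Nonempty := by
    refine ⟨_, 0, ⟨?_, ?_⟩, rfl⟩
    · intro x y
      show inner ℂ ((0 : V n →L[ℂ] V n) x) y = inner ℂ x ((0 : V n →L[ℂ] V n) y)
      rw [zero_apply, zero_apply, inner_zero_left,
        inner_zero_right]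
    · intro U _ z
      rw [zero_apply, zero_apply, map_zero]
  have hbd : BddAbove S := ⟨Module.finrank ℂ (V n), by
    rintro _ ⟨h, -, rfl⟩
    exact eg_card h⟩
  obtain ⟨h, hh, hcard⟩ := Nat.sSup_mem hne hbd
  exact ⟨h, hh, fun h' hh' => hcard ▸ le_csSup hbd ⟨h', hh', rfl⟩⟩

theorem ad_comb {n : ℕ} {G : Subgroup (V n ≃ₗᵢ[ℂ] V n)} {h Y : V n →L[ℂ] V n} (hh : Ad G h)
    (hY : Ad G Y) (ε : ℝ) : Ad G (h + (ε : ℂ) • Y) := by
  refine ⟨?_, ?_⟩
  · intro x y
    show inner ℂ ((h + (ε : ℂ) • Y) x) y = inner ℂ x ((h + (ε : ℂ) • Y) y)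
    have h1 : inner ℂ (h x) y = inner ℂ x (h y) := hh.1 x y
    have h2 : inner ℂ (Y x) y = inner ℂ x (Y y) := hY.1 x y
    rw [add_apply, smul_apply,
      add_apply, smul_apply, inner_add_left,
      inner_add_right, inner_smul_left, inner_smul_right, h1, h2, Complex.conj_ofReal]
  · intro U hU z
    rw [add_apply, smul_apply,
      add_apply, smul_apply, map_add, map_smul,
      hh.2 U hU, hY.2 U hU]

/-- **GOOD** -/
theorem t_GOOD : S_GOOD := by
  intro n G _
  obtain ⟨h, hh, hmax⟩ := ex_max G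
  refine ⟨h, sa_of_sym hh.1, fun U hU z => hh.2 U hU z, ?_⟩
  intro Y hYG hYh Z hZh
  have hYh' : ∀ x, Y (h x) = h (Y x) := fun x => DFunLike.congr_fun hYh x
  have hZh' : ∀ x, Z (h x) = h (Z x) := fun x => DFunLike.congr_fun hZh x
  set Y' : V n →L[ℂ] V n := ContinuousLinearMap.adjoint Y with hY'
  have hadl : ∀ x y, inner ℂ (Y' x) y = inner ℂ x (Y y) := fun x y =>
    ContinuousLinearMap.adjoint_inner_left Y y x
  have hadr : ∀ x y, inner ℂ x (Y' y) = inner ℂ (Y x) y := fun x y =>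
    ContinuousLinearMap.adjoint_inner_right Y x y
  have hs : ∀ x y, inner ℂ (h x) y = inner ℂ x (h y) := fun x y => hh.1 x y
  have hY'G : ∀ U ∈ G, ∀ z, Y' (U z) = U (Y' z) := by
    intro U hU z
    refine ext_inner_left ℂ fun w => ?_
    have h1 : Y (U.symm w) = U.symm (Y w) := hYG U⁻¹ (G.inv_mem hU) w
    have h2 : inner ℂ w (U (Y' z)) = inner ℂ (U.symm w) (Y' z) := by
      rw [← LinearIsometryEquiv.inner_map_map U (U.symm w) (Y' z), U.apply_symm_apply]
    have h3 : inner ℂ (Y w) (U z) = inner ℂ (U.symm (Y w)) z := by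
      rw [← LinearIsometryEquiv.inner_map_map U (U.symm (Y w)) z, U.apply_symm_apply]
    rw [hadr, h2, hadr, h1, h3]
  have hY'h : ∀ x, Y' (h x) = h (Y' x) := by
    intro x
    refine ext_inner_left ℂ fun w => ?_
    rw [hadr, ← hs, ← hYh', ← hs, hadr]
  have hS : Ad G (Y + Y') := by
    refine ⟨?_, ?_⟩
    · intro x y
      show inner ℂ ((Y + Y') x) y = inner ℂ x ((Y + Y') y)
      rw [add_apply, add_apply, inner_add_left,
        inner_add_right, hadl, hadr, add_comm]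
    · intro U hU z
      rw [add_apply, add_apply, map_add, hYG U hU,
        hY'G U hU]
  have hT : Ad G (Complex.I • (Y - Y')) := by
    refine ⟨?_, ?_⟩
    · intro x y
      show inner ℂ ((Complex.I • (Y - Y')) x) y = inner ℂ x ((Complex.I • (Y - Y')) y)
      rw [smul_apply, smul_apply,
        sub_apply, sub_apply, inner_smul_left,
        inner_smul_right, inner_sub_left, inner_sub_right, hadl, hadr, Complex.conj_I]
      ring
    · intro U hU z
      rw [smul_apply, smul_apply,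
        sub_apply, sub_apply, map_smul, map_sub,
        hYG U hU, hY'G U hU]
  have kS := fun x => key h (Y + Y') hh.1 hS.1 (fun x => by
      rw [add_apply, add_apply, map_add, hYh', hY'h])
    (fun ε => hmax _ (ad_comb hh hS ε)) Z hZh' x
  have kT := fun x => key h (Complex.I • (Y - Y')) hh.1 hT.1 (fun x => by
      rw [smul_apply, smul_apply,
        sub_apply, sub_apply, map_smul, map_sub, hYh', hY'h])
    (fun ε => hmax _ (ad_comb hh hT ε)) Z hZh' x
  refine ContinuousLinearMap.ext fun x => ?_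
  show Z (Y x) = Y (Z x)
  have e1 := kS x
  have e2 := kT x
  rw [add_apply, add_apply, map_add] at e1
  rw [smul_apply, smul_apply,
    sub_apply, sub_apply, map_smul, map_sub] at e2
  have e3 : Z (Y x) - Z (Y' x) = Y (Z x) - Y' (Z x) := smul_right_injective _ Complex.I_ne_zero e2
  have e4 : (2 : ℂ) • Z (Y x) = (2 : ℂ) • Y (Z x) := by
    rw [two_smul, two_smul]
    have h5 : Z (Y x) + Z (Y x) = (Z (Y x) + Z (Y' x)) + (Z (Y x) - Z (Y' x)) := by abel
    have h6 : Y (Z x) + Y (Z x) = (Y (Z x) + Y' (Z x)) + (Y (Z x) - Y' (Z x)) := by abel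
    rw [h5, h6, e1, e3]
  exact smul_right_injective _ (two_ne_zero' ℂ) e4

end Pool.Agent.H379.RS
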